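import Mathlib
import Pool.Agent.Y379.MonoConvexCore

/-!
Monochromatic convex `p`-gons in two-coloured point sets: `log₂ g(p) ≤ 8 p² log₂ p` for all
`p ≥ 3`, where the best bound on record is doubly exponential.
-/

namespace Pool.Agent.Results.MP_6c3374_co.PolynomialLog

open Pool.Agent.Y379.MonoConvexCore

/-- the Euclidean plane -/
abbrev Plane : Type := EuclideanSpace ℝ (Fin 2)

/-- `P` is in general position: no three distinct points of `P` are collinear. -/
def GeneralPosition (P : Finset Plane) : Prop :=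
  ∀ a ∈ P, ∀ b ∈ P, ∀ c ∈ P, a ≠ b → a ≠ c → b ≠ c → ¬ Collinear ℝ ({a, b, c} : Set Plane)

/-- `Q` is in convex position: no point of `Q` lies in the convex hull of the others. -/
def ConvexPosition (Q : Finset Plane) : Prop :=
  ∀ x ∈ Q, x ∉ convexHull ℝ ((Q : Set Plane) \ {x})

/-- `n` has the property defining `g(p)`: for every set of `n` points in general position and
every 2-colouring `χ` of the (unordered) pairs, some `p` of the points are in convex position and
all pairs of distinct points among them have the same colour. -/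
def Forces (p n : ℕ) : Prop :=
  ∀ P : Finset Plane, P.card = n → GeneralPosition P → ∀ χ : Sym2 Plane → Bool,
    ∃ Q ⊆ P, Q.card = p ∧ ConvexPosition Q ∧
      ∃ col : Bool, ∀ x ∈ Q, ∀ y ∈ Q, x ≠ y → χ s(x, y) = col

/-- `g p` is the least `n` with the property. -/
noncomputable def g (p : ℕ) : ℕ := sInf {n : ℕ | Forces p n}

lemma exists_generic (P : Finset Plane) :
    ∃ t : ℝ, Set.InjOn (fun z : Plane => z 0 + t * z 1) (P : Set Plane) := by
  classical
  let bad : Finset ℝ := (P ×ˢ P).image (fun q => (q.2 0 - q.1 0) / (q.1 1 - q.2 1))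
  obtain ⟨t, ht⟩ := Infinite.exists_notMem_finset bad
  refine ⟨t, ?_⟩
  intro x hx y hy hxy
  simp only at hxy
  by_contra hne
  by_cases h1 : x 1 = y 1
  · apply hne
    have h0 : x 0 = y 0 := by rw [h1] at hxy; linarith
    ext i
    fin_cases i
    · exact h0
    · exact h1
  · apply ht
    refine Finset.mem_image.mpr ⟨(x, y), Finset.mem_product.mpr
      ⟨by exact_mod_cast hx, by exact_mod_cast hy⟩, ?_⟩
    have h2 : x 1 - y 1 ≠ 0 := sub_ne_zero.mpr h1
    simp only
    rw [div_eq_iff h2]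
    linarith

lemma exists_separating (A B : Finset ℝ) (h : ∀ a ∈ A, ∀ b ∈ B, a < b) :
    ∃ s : ℝ, (∀ a ∈ A, a < s) ∧ ∀ b ∈ B, s < b := by
  rcases A.eq_empty_or_nonempty with hA | hA
  · subst hA
    rcases B.eq_empty_or_nonempty with hB | hB
    · subst hB; exact ⟨0, by simp, by simp⟩
    · refine ⟨B.min' hB - 1, by simp, fun b hb => ?_⟩
      have := B.min'_le b hb
      linarith
  · rcases B.eq_empty_or_nonempty with hB | hB
    · subst hB
      refine ⟨A.max' hA + 1, fun a ha => ?_, by simp⟩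
      have := A.le_max' a ha
      linarith
    · have hlt := h _ (A.max'_mem hA) _ (B.min'_mem hB)
      refine ⟨(A.max' hA + B.min' hB) / 2, fun a ha => ?_, fun b hb => ?_⟩
      · have := A.le_max' a ha
        linarith
      · have := B.min'_le b hb
        linarith

/-- A chain of constant orientation is in convex position. -/
lemma convexPosition_of_chain (t : ℝ) (C : Finset Plane)
    (hinj : Set.InjOn (fun z : Plane => z 0 + t * z 1) (C : Set Plane)) (σ : ℝ)
    (hσ : σ = 1 ∨ σ = -1)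
    (hC : Chain (fun z : Plane => z 0 + t * z 1) (fun z : Plane => z 1) σ C) :
    ConvexPosition C := by
  classical
  intro x hx hmem
  set u : Plane → ℝ := fun z => z 0 + t * z 1 with hu
  set w : Plane → ℝ := fun z => z 1 with hw
  let sl : Plane → ℝ := fun z => σ * ((w z - w x) / (u z - u x))
  let A : Finset ℝ := (C.filter (fun z => u z < u x)).image sl
  let B : Finset ℝ := (C.filter (fun z => u x < u z)).image sl
  have hAB : ∀ a ∈ A, ∀ b ∈ B, a < b := by
    intro a ha b hb
    obtain ⟨z, hz, rfl⟩ := Finset.mem_image.mp ha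
    obtain ⟨y, hy, rfl⟩ := Finset.mem_image.mp hb
    rw [Finset.mem_filter] at hz hy
    have h1 := hC z hz.1 x hx y hy.1 hz.2 hy.2
    have e1 : (w z - w x) / (u z - u x) = (w x - w z) / (u x - u z) := by
      rw [← neg_sub (w x) (w z), ← neg_sub (u x) (u z), neg_div_neg_eq]
    simp only [sl]
    rw [e1]
    rcases hσ with h | h
    · subst h
      rw [one_mul] at h1
      have := (D_pos_iff u w hz.2 hy.2).mp h1
      linarith
    · subst h
      have h2 : D u w z x y < 0 := by linarith
      have := (D_neg_iff u w hz.2 hy.2).mp h2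
      linarith
  obtain ⟨s, hsA, hsB⟩ := exists_separating A B hAB
  -- the open half-plane containing all other points
  let f : Plane → ℝ := fun z => σ * w z - s * u z
  have hlin : IsLinearMap ℝ f := by
    constructor
    · intro a b
      simp only [f, hu, hw, PiLp.add_apply]
      ring
    · intro c a
      simp only [f, hu, hw, PiLp.smul_apply, smul_eq_mul]
      ring
  have hsub : (C : Set Plane) \ {x} ⊆ {z | f x < f z} := by
    intro z hz
    have hzC : z ∈ C := by exact_mod_cast hz.1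
    have hzx : z ≠ x := hz.2
    have hux : u z ≠ u x := fun h => hzx (hinj (by exact_mod_cast hzC) (by exact_mod_cast hx) h)
    simp only [Set.mem_ofPred_eq, f]
    rcases lt_or_gt_of_ne hux with h | h
    · have h1 := hsA (sl z) (Finset.mem_image.mpr ⟨z, Finset.mem_filter.mpr ⟨hzC, h⟩, rfl⟩)
      simp only [sl] at h1
      have h2 : u z - u x < 0 := by linarith
      have h3 : σ * ((w z - w x) / (u z - u x)) * (u z - u x) = σ * (w z - w x) := by
        field_simp
      have h4 := mul_lt_mul_of_neg_right h1 h2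
      rw [h3] at h4
      linarith
    · have h1 := hsB (sl z) (Finset.mem_image.mpr ⟨z, Finset.mem_filter.mpr ⟨hzC, h⟩, rfl⟩)
      simp only [sl] at h1
      have h2 : 0 < u z - u x := by linarith
      have h3 : σ * ((w z - w x) / (u z - u x)) * (u z - u x) = σ * (w z - w x) := by
        field_simp
      have h4 := mul_lt_mul_of_pos_right h1 h2
      rw [h3] at h4
      linarith
  have hconv : Convex ℝ {z | f x < f z} := convex_halfSpace_gt hlin (f x)
  have hfin := convexHull_min hsub hconv hmem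
  rw [Set.mem_ofPred_eq] at hfin
  exact lt_irrefl _ hfin

lemma convexPosition_subset {C C' : Finset Plane} (h : C' ⊆ C) (hC : ConvexPosition C) :
    ConvexPosition C' := by
  intro x hx hmem
  refine hC x (h hx) (convexHull_mono ?_ hmem)
  intro z hz
  exact ⟨by exact_mod_cast h (by exact_mod_cast hz.1), hz.2⟩

lemma collinear_of_D (t : ℝ) {a b c : Plane}
    (hab : a 0 + t * a 1 < b 0 + t * b 1)
    (h : D (fun z : Plane => z 0 + t * z 1) (fun z : Plane => z 1) a b c = 0) :
    Collinear ℝ ({a, b, c} : Set Plane) := by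
  rw [collinear_iff_of_mem (p₀ := a) (by simp)]
  refine ⟨b - a, ?_⟩
  unfold D at h
  simp only at h
  have hne : b 0 + t * b 1 - (a 0 + t * a 1) ≠ 0 := by
    have : 0 < b 0 + t * b 1 - (a 0 + t * a 1) := by linarith
    exact this.ne'
  intro p hp
  simp only [Set.mem_insert_iff, Set.mem_singleton_iff] at hp
  rcases hp with rfl | rfl | rfl
  · exact ⟨0, by simp⟩
  · exact ⟨1, by simp⟩
  · set r : ℝ := (p 0 + t * p 1 - (a 0 + t * a 1)) / (b 0 + t * b 1 - (a 0 + t * a 1)) with hr
    have hr1 : r * (b 0 + t * b 1 - (a 0 + t * a 1)) = p 0 + t * p 1 - (a 0 + t * a 1) := by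
      rw [hr]; field_simp
    have h1 : p 1 - a 1 = r * (b 1 - a 1) := by
      have h2 : (b 0 + t * b 1 - (a 0 + t * a 1)) * (p 1 - a 1) =
          (b 0 + t * b 1 - (a 0 + t * a 1)) * (r * (b 1 - a 1)) := by
        have : (b 0 + t * b 1 - (a 0 + t * a 1)) * (r * (b 1 - a 1)) =
            (r * (b 0 + t * b 1 - (a 0 + t * a 1))) * (b 1 - a 1) := by ring
        rw [this, hr1]
        linarith
      exact mul_left_cancel₀ hne h2
    have h0 : p 0 - a 0 = r * (b 0 - a 0) := by
      have h3 : r * (b 0 + t * b 1 - (a 0 + t * a 1)) =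
          r * (b 0 - a 0) + t * (r * (b 1 - a 1)) := by ring
      rw [h3, ← h1] at hr1
      linarith
    refine ⟨r, ?_⟩
    ext i
    simp only [vadd_eq_add, PiLp.add_apply, PiLp.smul_apply, PiLp.sub_apply, smul_eq_mul]
    fin_cases i
    · simp only [Fin.zero_eta]; linarith
    · simp only [Fin.mk_one]; linarith

/-- Size bound. -/
theorem forces (q n : ℕ) (hn : (4 * (2 * (q * q) + 1)) ^ (2 * (q * q) + 1) ≤ n) :
    Forces (q + 1) n := by
  classical
  intro P hPcard hgen χ
  obtain ⟨t, ht⟩ := exists_generic P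
  obtain ⟨C, hCP, hCcard, ⟨σ, hσ, hchain⟩, col, hcol⟩ :=
    core (fun z : Plane => z 0 + t * z 1) (fun z : Plane => z 1) (fun a b => χ s(a, b)) P q ht
      (by
        intro a ha b hb c hc hab hbc hD
        refine hgen a ha b hb c hc ?_ ?_ ?_ (collinear_of_D t hab hD)
        · rintro rfl; exact lt_irrefl _ hab
        · rintro rfl; exact lt_irrefl _ (hab.trans hbc)
        · rintro rfl; exact lt_irrefl _ hbc)
      (by rw [hPcard]; exact hn)
  obtain ⟨Q, hQC, hQcard⟩ := Finset.exists_subset_card_eq hCcard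
  refine ⟨Q, hQC.trans hCP, hQcard, convexPosition_subset hQC
    (convexPosition_of_chain t C (ht.mono (by exact_mod_cast hCP)) σ hσ hchain), col, ?_⟩
  intro x hx y hy hxy
  have hux : (fun z : Plane => z 0 + t * z 1) x ≠ (fun z : Plane => z 0 + t * z 1) y :=
    fun h => hxy (ht (by exact_mod_cast hCP (hQC hx)) (by exact_mod_cast hCP (hQC hy)) h)
  rcases lt_or_gt_of_ne hux with h | h
  · exact hcol x (hQC hx) y (hQC hy) h
  · rw [Sym2.eq_swap]
    exact hcol y (hQC hy) x (hQC hx) h

theorem result : ∀ p : ℕ, 3 ≤ p →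
    Forces p (g p) ∧ Real.logb 2 (g p) ≤ 8 * (p : ℝ) ^ 2 * Real.logb 2 p := by
  intro p hp
  obtain ⟨q, rfl⟩ : ∃ q, p = q + 1 := ⟨p - 1, by omega⟩
  have hq : 2 ≤ q := by omega
  have hF := forces q _ (le_refl ((4 * (2 * (q * q) + 1)) ^ (2 * (q * q) + 1)))
  have hne : {n : ℕ | Forces (q + 1) n}.Nonempty := ⟨_, hF⟩
  refine ⟨Nat.sInf_mem hne, ?_⟩
  have hle : g (q + 1) ≤ (4 * (2 * (q * q) + 1)) ^ (2 * (q * q) + 1) := Nat.sInf_le hF
  have hgpos : 0 < g (q + 1) := by
    by_contra h0
    have h0' : g (q + 1) = 0 := by omega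
    have h1 : Forces (q + 1) 0 := by
      have := Nat.sInf_mem hne
      rw [show sInf {n : ℕ | Forces (q + 1) n} = 0 from h0'] at this
      exact this
    obtain ⟨Q, hQ, hQc, _⟩ := h1 ∅ (by simp) (by intro a ha; simp at ha) (fun _ => true)
    rw [Finset.subset_empty.mp hQ] at hQc
    simp at hQc
  -- numerics
  have hm : 2 * (q * q) + 1 ≤ 2 * (q + 1) ^ 2 := by nlinarith
  have h1 : (4 * (2 * (q * q) + 1)) ^ (2 * (q * q) + 1) ≤
      (8 * (q + 1) ^ 2) ^ (2 * (q + 1) ^ 2) := by
    calc (4 * (2 * (q * q) + 1)) ^ (2 * (q * q) + 1)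
        ≤ (8 * (q + 1) ^ 2) ^ (2 * (q * q) + 1) := by
          apply Nat.pow_le_pow_left; nlinarith
      _ ≤ (8 * (q + 1) ^ 2) ^ (2 * (q + 1) ^ 2) := by
          apply Nat.pow_le_pow_right (by positivity) hm
  have h2 : (g (q + 1) : ℝ) ≤ (8 * ((q : ℝ) + 1) ^ 2) ^ (2 * (q + 1) ^ 2) := by
    exact_mod_cast hle.trans h1
  have hgpos' : (0 : ℝ) < (g (q + 1) : ℝ) := by exact_mod_cast hgpos
  have h3 : Real.logb 2 (g (q + 1)) ≤
      Real.logb 2 ((8 * ((q : ℝ) + 1) ^ 2) ^ (2 * (q + 1) ^ 2)) :=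
    Real.logb_le_logb_of_le (by norm_num) hgpos' h2
  have hqpos : (0 : ℝ) < (q : ℝ) + 1 := by positivity
  have h4 : Real.logb 2 ((8 * ((q : ℝ) + 1) ^ 2) ^ (2 * (q + 1) ^ 2)) =
      2 * ((q : ℝ) + 1) ^ 2 * (3 + 2 * Real.logb 2 ((q : ℝ) + 1)) := by
    rw [Real.logb_pow, Real.logb_mul (by norm_num) (by positivity), Real.logb_pow]
    have h8 : Real.logb 2 8 = 3 := by
      rw [show (8 : ℝ) = 2 ^ (3 : ℝ) by norm_num]
      exact Real.logb_rpow (by norm_num) (by norm_num)
    rw [h8]
    push_cast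
    ring
  have h5 : (3 : ℝ) / 2 ≤ Real.logb 2 ((q : ℝ) + 1) := by
    rw [Real.le_logb_iff_rpow_le (by norm_num) hqpos]
    have h6 : ((2 : ℝ) ^ ((3 : ℝ) / 2)) ^ 2 = 8 := by
      rw [← Real.rpow_natCast, ← Real.rpow_mul (by norm_num)]
      norm_num
    have h7 : (3 : ℝ) ≤ (q : ℝ) + 1 := by
      have : (2 : ℝ) ≤ q := by exact_mod_cast hq
      linarith
    have h8 : (0 : ℝ) ≤ (2 : ℝ) ^ ((3 : ℝ) / 2) := by positivity
    nlinarith
  push_cast
  rw [h4] at h3
  have h9 : 0 ≤ ((q : ℝ) + 1) ^ 2 := by positivity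
  nlinarith [mul_nonneg h9 (sub_nonneg.mpr h5)]

end Pool.Agent.Results.MP_6c3374_co.PolynomialLog
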